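import Pool.Agent.PGm.M12
import Pool.Agent.PGm.M14
import Pool.Agent.PGc.Four
import Pool.Agent.PGc.PrefType

/-! # Module ARarc: maps with the root edge on the axis -/

set_option linter.unusedSectionVars false

namespace PGr
open Equiv Finset

section
variable {T : Type*} [Fintype T] [DecidableEq T] {a s : Perm T}

/-- the corners between two sets -/
def ARarc_cr (s : Perm T) (X Y : Finset T) : Finset T :=
  univ.filter fun t => (t ∈ X ∧ s t ∈ Y) ∨ (t ∈ Y ∧ s t ∈ X)

theorem ARarc_mem_cr {X Y : Finset T} {t : T} :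
    t ∈ ARarc_cr s X Y ↔ (t ∈ X ∧ s t ∈ Y) ∨ (t ∈ Y ∧ s t ∈ X) := by
  simp [ARarc_cr]

theorem ARarc_cut_union (s : Perm T) {X Y : Finset T} (hd : Disjoint X Y) :
    cut s (X ∪ Y) + 2 * (ARarc_cr s X Y).card = cut s X + cut s Y := by
  unfold cut bd ARarc_cr
  simp only [card_filter]
  rw [mul_sum, ← sum_add_distrib, ← sum_add_distrib]
  refine sum_congr rfl fun t _ => ?_
  have h1 : ¬ (t ∈ X ∧ t ∈ Y) := fun h => disjoint_left.1 hd h.1 h.2
  have h2 : ¬ (s t ∈ X ∧ s t ∈ Y) := fun h => disjoint_left.1 hd h.1 h.2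
  simp only [mem_union]
  by_cases a1 : t ∈ X <;> by_cases a2 : t ∈ Y <;> by_cases a3 : s t ∈ X <;>
    by_cases a4 : s t ∈ Y <;> simp_all

/-- a closed set with all boundary corners at two vertices `p`, `q`, where the dart `p` is not in the
set and its two neighbours are: if there are only two boundary corners at `p`, the set `B ∪ {p, a p}` is everything -/
theorem ARarc_full (h : Good a s) {B : Finset T} (hB : Cl a B) {p q : T} (hpa : a p = q)
    (hpB : p ∉ B) (h1 : s p ∈ B) (h2 : s⁻¹ p ∈ B)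
    (hc : ((univ.filter fun x => s.SameCycle p x) ∩ bd s B).card = 2)
    (hbd : ∀ t ∈ bd s B, s.SameCycle p t ∨ s.SameCycle q t) : B ∪ {p, a p} = univ := by
  by_contra hu
  have hss : s (s⁻¹ p) = p := SerExcl.apply_inv s p
  have hqB : a p ∉ B := fun h3 => hpB ((hB p).1 h3)
  have hpbd : p ∈ bd s B := by rw [mem_bd]; tauto
  have htbd : s⁻¹ p ∈ bd s B := by rw [mem_bd, hss]; tauto
  have hne : p ≠ s⁻¹ p := fun e => hpB (by rw [e]; exact h2)
  have hsc1 : s.SameCycle p (s⁻¹ p) := ⟨-1, by simp⟩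
  have hset : ((univ.filter fun x => s.SameCycle p x) ∩ bd s B) = {p, s⁻¹ p} := by
    symm
    apply eq_of_subset_of_card_le
    · intro x hx
      rw [mem_insert, mem_singleton] at hx
      rw [mem_inter, mem_filter]
      rcases hx with rfl | rfl
      · exact ⟨⟨mem_univ _, Perm.SameCycle.refl _ _⟩, hpbd⟩
      · exact ⟨⟨mem_univ _, hsc1⟩, htbd⟩
    · rw [hc, card_pair hne]
  have hkey : ∀ w, s.SameCycle p w → w ∈ bd s B → w = p ∨ w = s⁻¹ p := by
    intro w hw1 hw2
    have : w ∈ ((univ.filter fun x => s.SameCycle p x) ∩ bd s B) := by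
      rw [mem_inter, mem_filter]; exact ⟨⟨mem_univ _, hw1⟩, hw2⟩
    rw [hset, mem_insert, mem_singleton] at this
    exact this
  -- all darts at `p` are in `B ∪ {p}`
  have hall : ∀ x, s.SameCycle p x → x ∈ insert p B := by
    intro x hx
    by_contra hxn
    obtain ⟨k, hk, hk'⟩ := SubMap.exit s (P := insert p B) (x := s p) (y := x)
      (mem_insert_of_mem h1) hxn ((show s.SameCycle (s p) p from ⟨-1, by simp⟩).trans hx)
    set w := (s ^ k) (s p) with hw
    have hwp : s.SameCycle p w := (show s.SameCycle p (s p) from ⟨1, by simp⟩).trans ⟨k, by simp [hw]⟩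
    have hwm := hk k le_rfl
    rw [← hw] at hwm
    rw [mem_insert] at hwm
    rw [mem_insert, not_or] at hk'
    rcases hwm with e | e
    · rw [e] at hk'
      exact hk'.2 h1
    · have hwb : w ∈ bd s B := by rw [mem_bd]; tauto
      rcases hkey w hwp hwb with e2 | e2
      · exact hpB (e2 ▸ e)
      · apply hk'.1
        rw [e2, hss]
  set B' := (B ∪ {p, a p})ᶜ with hB'
  have hB'c : Cl a B' := (hB.union (Cl_pair h.inv p)).compl
  have hB'n : B'.Nonempty := by
    by_contra hn
    rw [not_nonempty_iff_eq_empty, hB', compl_eq_empty_iff] at hn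
    exact hu hn
  have hB'u : B' ≠ univ := by
    intro h0
    have h3 : p ∈ B' := by rw [h0]; exact mem_univ _
    rw [hB', mem_compl] at h3
    exact h3 (mem_union_right _ (by simp))
  obtain ⟨t, t', ht, ht', hnt⟩ := h.two_shared hB'c hB'n hB'u
  have hz : ∀ t, ShC s B' t → s.SameCycle q t := by
    intro t ht
    obtain ⟨z, hz, htz⟩ := Four.exists_bd_of_shC ht
    by_cases hzp : s.SameCycle p z
    · exfalso
      have h3 := hall z hzp
      have h4 := hall (s z) (hzp.trans ⟨1, by simp⟩)
      rw [mem_bd] at hz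
      apply hz
      rw [hB', mem_compl, mem_compl]
      rw [mem_insert] at h3 h4
      have h5 : z ∈ B ∪ {p, a p} := by
        rw [mem_union, mem_insert]; tauto
      have h6 : s z ∈ B ∪ {p, a p} := by
        rw [mem_union, mem_insert]; tauto
      exact ⟨fun h => absurd h5 h, fun h => absurd h6 h⟩
    · by_cases hzq : s.SameCycle q z
      · exact hzq.trans htz.symm
      · exfalso
        have hzb : z ∉ bd s B := fun h3 => (hbd z h3).elim hzp hzq
        rw [mem_bd, not_not] at hzb
        rw [mem_bd] at hz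
        apply hz
        have e1 : z ≠ p := fun e => hzp (e ▸ Perm.SameCycle.refl _ _)
        have e2 : z ≠ a p := fun e => hzq (by rw [e, hpa])
        have e3 : s z ≠ p := fun e => hzp (by
          rw [← e]; exact (show s.SameCycle z (s z) from ⟨1, by simp⟩).symm)
        have e4 : s z ≠ a p := fun e => hzq (by
          rw [← hpa, ← e]; exact (show s.SameCycle z (s z) from ⟨1, by simp⟩).symm)
        rw [hB', mem_compl, mem_compl, mem_union, mem_union, mem_insert, mem_insert,
          mem_singleton, mem_singleton]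
        tauto
  exact hnt ((hz t ht).symm.trans (hz t' ht'))

end

/-- A set of nonroot edges of a net whose boundary corners are all at the two poles, and which contains the dart before `inr true` and the dart
after `inr false`: if it is not everything the net is parallel.  Proof.  By `Good.two_shared` there are boundary corners at both poles, an even number at each (`PrefType_even`), so
exactly two at each pole.  Let `B' = (B ∪ root)ᶜ`.  The dart after `inr true` is in `B'`: otherwise the two corners next to `inr true` are the two boundary corners of `B` at this pole, all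
nonroot darts at the pole are in `B`, and `B'` (closed, not empty) would have boundary corners at one vertex only, contradiction to `Good.two_shared`.  In the
same way the dart before `inr false` is in `B'`.  So adding the root edge does not change the number of boundary corners, `cut B' = cut (B ∪ root) = 4`, `cut (B' ∪ root) = cut B = 4`,
`B'` is a prefix, and it is a series prefix of the dual as `s⁻¹ (inr false) ∈ B'` (compare the proof of `pref_ser_or_par`). -/
theorem par_of_poles {M : BMap} (hM : M.IsGood) {B : Finset M.T} (hB : Cl M.aa B)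
    (h4 : cut M.s B = 4) (hr : Sum.inr true ∉ B) (hl : M.s⁻¹ (Sum.inr true) ∈ B)
    (hf : M.s (Sum.inr false) ∈ B) (hu : B ∪ M.root ≠ univ)
    (hp : ∀ t ∈ bd M.s B, ∃ b, M.s.SameCycle t (Sum.inr b)) : IsPar M := by
  have hrf : (Sum.inr false : M.T) ∉ B := fun h1 => hr ((hB (Sum.inr true)).1 h1)
  have hss : M.s (M.s⁻¹ (Sum.inr true)) = Sum.inr true := SerExcl.apply_inv _ _
  have hssf : M.s (M.s⁻¹ (Sum.inr false)) = Sum.inr false := SerExcl.apply_inv _ _
  have htb : M.s⁻¹ (Sum.inr true) ∈ bd M.s B := by rw [mem_bd, hss]; tauto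
  have hfb : (Sum.inr false : M.T) ∈ bd M.s B := by rw [mem_bd]; tauto
  have hloop : ¬ M.s.SameCycle (Sum.inr true) (Sum.inr false) := hM.noLoop (Sum.inr true)
  have hbdp : ∀ t ∈ bd M.s B, M.s.SameCycle (Sum.inr true) t ∨ M.s.SameCycle (Sum.inr false) t := by
    intro t ht
    obtain ⟨b, hb⟩ := hp t ht
    cases b
    · exact Or.inr hb.symm
    · exact Or.inl hb.symm
  have hall : ((univ.filter fun x => M.s.SameCycle (Sum.inr true) x) ∩ bd M.s B) ∪
      ((univ.filter fun x => M.s.SameCycle (Sum.inr false) x) ∩ bd M.s B) = bd M.s B := by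
    ext x
    simp only [mem_union, mem_inter, mem_filter, mem_univ, true_and]
    constructor
    · rintro (h | h)
      · exact h.2
      · exact h.2
    · intro h
      rcases hbdp x h with h1 | h1
      · exact Or.inl ⟨h1, h⟩
      · exact Or.inr ⟨h1, h⟩
  have hdis : Disjoint ((univ.filter fun x => M.s.SameCycle (Sum.inr true) x) ∩ bd M.s B)
      ((univ.filter fun x => M.s.SameCycle (Sum.inr false) x) ∩ bd M.s B) := by
    rw [disjoint_left]
    intro x h1 h2
    simp only [mem_inter, mem_filter, mem_univ, true_and] at h1 h2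
    exact hloop (h1.1.trans h2.1.symm)
  have c1 := (PrefType_two (PrefType_even M.s B (Sum.inr true)) (x := M.s⁻¹ (Sum.inr true))
    (by rw [mem_inter, mem_filter]; exact ⟨⟨mem_univ _, ⟨-1, by simp⟩⟩, htb⟩)).1
  have c2 := (PrefType_two (PrefType_even M.s B (Sum.inr false)) (x := Sum.inr false)
    (by rw [mem_inter, mem_filter]; exact ⟨⟨mem_univ _, Perm.SameCycle.refl _ _⟩, hfb⟩)).1
  have hsum := card_union_of_disjoint hdis
  rw [hall] at hsum
  have h4' : (bd M.s B).card = 4 := h4
  rw [h4'] at hsum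
  have d1 : ((univ.filter fun x => M.s.SameCycle (Sum.inr true) x) ∩ bd M.s B).card = 2 := by omega
  have d2 : ((univ.filter fun x => M.s.SameCycle (Sum.inr false) x) ∩ bd M.s B).card = 2 := by omega
  have hroot : M.root = {Sum.inr true, M.aa (Sum.inr true)} := rfl
  have hroot' : M.root = {Sum.inr false, M.aa (Sum.inr false)} := by
    show ({Sum.inr true, Sum.inr false} : Finset M.T) = {Sum.inr false, Sum.inr true}
    exact pair_comm _ _
  have hst : M.s (Sum.inr true) ∉ B := by
    intro h1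
    apply hu
    rw [hroot]
    exact ARarc_full hM hB (p := Sum.inr true) (q := Sum.inr false) rfl hr h1 hl d1 hbdp
  have hsf : M.s⁻¹ (Sum.inr false) ∉ B := by
    intro h1
    apply hu
    rw [hroot']
    exact ARarc_full hM hB (p := Sum.inr false) (q := Sum.inr true) rfl hrf hf h1 d2
      (fun t ht => (hbdp t ht).symm)
  have hRB : ∀ t ∈ M.root, t ∉ B := by
    intro t ht
    obtain ⟨b, rfl⟩ := CompFour.mem_root.1 ht
    cases b
    · exact hrf
    · exact hr
  have hstr : M.s (Sum.inr true) ∉ M.root := by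
    rw [hroot, mem_insert, mem_singleton, not_or]
    exact ⟨hM.s_ne _, hM.s_ne_a _⟩
  have hsfr : M.s⁻¹ (Sum.inr false) ∉ M.root := by
    intro h1
    have h2 := hM.s_ne (Sum.inr false)
    have h3 := hM.s_ne_a (Sum.inr true)
    rw [hroot, mem_insert, mem_singleton] at h1
    rcases h1 with h1 | h1
    · apply h3
      rw [← h1, hssf, h1]; rfl
    · apply h2
      have h5 : M.s⁻¹ (Sum.inr false) = Sum.inr false := h1
      rw [← h5, hssf, h5]
  have hcr : ARarc_cr M.s B M.root = {M.s⁻¹ (Sum.inr true), Sum.inr false} := by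
    ext t
    rw [ARarc_mem_cr, mem_insert, mem_singleton]
    constructor
    · rintro (⟨h1, h2⟩ | ⟨h1, h2⟩)
      · obtain ⟨b, hb⟩ := CompFour.mem_root.1 h2
        cases b
        · exfalso
          apply hsf
          rw [← hb, Perm.inv_def, Equiv.symm_apply_apply]
          exact h1
        · left
          rw [← hb, Perm.inv_def, Equiv.symm_apply_apply]
      · obtain ⟨b, rfl⟩ := CompFour.mem_root.1 h1
        cases b
        · exact Or.inr rfl
        · exact absurd h2 hst
    · rintro (rfl | rfl)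
      · left
        refine ⟨hl, ?_⟩
        rw [hss]
        exact CompFour.mem_root.2 ⟨_, rfl⟩
      · exact Or.inr ⟨CompFour.mem_root.2 ⟨_, rfl⟩, hf⟩
  have hcard2 : (ARarc_cr M.s B M.root).card = 2 := by
    rw [hcr, card_pair]
    intro e
    apply hrf
    rw [← e]; exact hl
  have hdBR : Disjoint B M.root := by
    rw [disjoint_left]
    intro x h1 h2
    exact hRB x h2 h1
  have hcu := ARarc_cut_union M.s hdBR
  have hcp : cut M.s M.root = 4 := by rw [hroot]; exact hM.cut_pair _
  rw [hcard2, h4, hcp] at hcu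
  have hBR : cut M.s (B ∪ M.root) = 4 := by omega
  have hAR : (B ∪ M.root)ᶜ ∪ M.root = Bᶜ := by
    ext t
    have := hRB t
    simp only [mem_union, mem_compl]
    tauto
  have hdinv : M.dual.s⁻¹ (Sum.inr true) = M.s⁻¹ (Sum.inr false) := by
    show (M.aa * M.s)⁻¹ (Sum.inr true) = _
    rw [Perm.inv_eq_iff_eq, Perm.mul_apply, hssf]
    rfl
  refine ⟨(B ∪ M.root)ᶜ, ⟨?_, ?_, ?_, ?_, ?_, ?_⟩, ?_⟩
  · exact (hB.union (CompFour.cl_root M)).compl
  · rw [mem_compl, not_not]
    exact mem_union_right _ (CompFour.mem_root.2 ⟨_, rfl⟩)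
  · have hcl : Cl M.aa (B ∪ M.root)ᶜ := (hB.union (CompFour.cl_root M)).compl
    refine (hcl (M.s (Sum.inr true))).2 ?_
    rw [mem_compl, mem_union, not_or]
    exact ⟨hst, hstr⟩
  · intro h0
    have h0' : ((B ∪ M.root)ᶜ ∪ M.root : Finset M.T) = univ := h0
    rw [hAR, eq_univ_iff_forall] at h0'
    exact (mem_compl.1 (h0' _)) hl
  · have hcl : Cl M.aa (B ∪ M.root)ᶜ := (hB.union (CompFour.cl_root M)).compl
    exact (cut_dual hcl).trans ((cut_compl _ _).trans hBR)
  · have hcl : Cl M.aa ((B ∪ M.root)ᶜ ∪ M.root) :=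
      ((hB.union (CompFour.cl_root M)).compl).union (CompFour.cl_root M)
    refine (cut_dual hcl).trans ?_
    rw [hAR]
    exact (cut_compl _ _).trans h4
  · rw [hdinv]
    have h5 : M.s⁻¹ (Sum.inr false) ∈ ((B ∪ M.root)ᶜ : Finset M.T) := by
      rw [mem_compl, mem_union, not_or]
      exact ⟨hsf, hsfr⟩
    exact h5

section comp
open CompInj CompFour
variable {C : Core} {N : C.I → GB}

theorem ARarc_mem_up (i : C.I) (B : Finset (N i).1.D) (t : (comp C N).T) :
    t ∈ upS N i B ↔ ∃ d ∈ B, dt N i d = t := by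
  unfold upS
  rw [mem_map]
  rfl

theorem ARarc_mem_dn {M : BMap} (B : Finset M.D) (d : M.D) : (Sum.inl d : M.T) ∈ dn B ↔ d ∈ B := by
  unfold dn
  rw [mem_map]
  constructor
  · rintro ⟨x, hx, h⟩
    have h1 : (Sum.inl x : M.T) = Sum.inl d := h
    rw [Sum.inl.injEq] at h1
    exact h1 ▸ hx
  · intro h
    exact ⟨d, h, rfl⟩

theorem ARarc_dn_inr {M : BMap} (B : Finset M.D) (b : Bool) : (Sum.inr b : M.T) ∉ dn B := by
  unfold dn
  rw [mem_map]
  rintro ⟨x, -, h⟩
  have h1 : (Sum.inl x : M.T) = Sum.inr b := h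
  simp at h1

/-- the darts of `A` in the part `i` -/
noncomputable def ARarc_tr (N : C.I → GB) (i : C.I) (A : Finset (comp C N).T) : Finset (N i).1.D :=
  univ.filter fun d => dt N i d ∈ A

theorem ARarc_mem_tr {i : C.I} {A : Finset (comp C N).T} {d : (N i).1.D} :
    d ∈ ARarc_tr N i A ↔ dt N i d ∈ A := by
  unfold ARarc_tr
  rw [mem_filter]
  simp

theorem ARarc_mem_P {i : C.I} {A : Finset (comp C N).T} {t : (comp C N).T} :
    t ∈ upS N i (ARarc_tr N i A) ↔ t ∈ A ∧ partOf C N t = some i := by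
  rw [ARarc_mem_up]
  constructor
  · rintro ⟨d, hd, rfl⟩
    exact ⟨ARarc_mem_tr.1 hd, rfl⟩
  · rintro ⟨h1, h2⟩
    rcases cases_dt N t with ⟨j, d, rfl⟩ | ⟨b, rfl⟩
    · rw [partOf_dt, Option.some.injEq] at h2
      subst h2
      exact ⟨d, ARarc_mem_tr.2 h1, rfl⟩
    · rw [partOf_root] at h2
      simp at h2

/-- corners between two parts are at last darts -/
theorem ARarc_cr_L (hC : C.toB.IsGood) {i j : C.I} (hij : i ≠ j) {X Y : Finset (comp C N).T}
    (hX : ∀ t ∈ X, partOf C N t = some i) (hY : ∀ t ∈ Y, partOf C N t = some j)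
    {t : (comp C N).T} (ht : t ∈ ARarc_cr (comp C N).s X Y) :
    ∃ x, t = L N x ∧ ((C.edge x = some i ∧ C.edge (C.s x) = some j) ∨
      (C.edge x = some j ∧ C.edge (C.s x) = some i)) := by
  rw [ARarc_mem_cr] at ht
  have h1 : partOf C N ((comp C N).s t) ≠ partOf C N t := by
    rcases ht with ⟨h1, h2⟩ | ⟨h1, h2⟩
    · rw [hX _ h1, hY _ h2]
      intro h; exact hij (Option.some.inj h).symm
    · rw [hY _ h1, hX _ h2]
      intro h; exact hij (Option.some.inj h)
  obtain ⟨x, rfl⟩ := (last_iff N hC t).1 h1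
  refine ⟨x, rfl, ?_⟩
  rcases ht with ⟨h1, h2⟩ | ⟨h1, h2⟩
  · left
    have e1 := hX _ h1
    have e2 := hY _ h2
    rw [partOf_L] at e1
    rw [s_L, partOf_J] at e2
    exact ⟨e1, e2⟩
  · right
    have e1 := hY _ h1
    have e2 := hX _ h2
    rw [partOf_L] at e1
    rw [s_L, partOf_J] at e2
    exact ⟨e1, e2⟩

/-- the image of a set of darts of one part under a reflection -/
theorem ARarc_map {c : Bool} {ψ : Perm C.toB.T} {e : Perm (comp C N).T}
    (h : CTw true c C C N N ψ e) {A : Finset (comp C N).T} (hA : ∀ t ∈ A, e t ∈ A)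
    (hC : C.toB.IsGood) {i j : C.I} (hij : ∀ b, ∃ b', ψ (Sum.inl (i, b)) = Sum.inl (j, b')) :
    (upS N i (ARarc_tr N i A)).map e.toEmbedding = upS N j (ARarc_tr N j A) := by
  have hee : ∀ t, e (e t) = t := h.tw.invol (comp_good C N hC)
  have hAA : ∀ t, e t ∈ A ↔ t ∈ A := fun t =>
    ⟨fun h1 => by have := hA _ h1; rwa [hee] at this, hA t⟩
  -- `e` maps part `i` to part `j`
  have hp : ∀ d : (N i).1.D, ∃ d', e (dt N i d) = dt N j d' := by
    intro d
    obtain ⟨b', hb'⟩ := hij true
    obtain ⟨φ, hφ, hφe⟩ := h.nets i true j b' hb'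
    obtain ⟨d', hd'⟩ := hφ.inl d
    exact ⟨d', hφe d d' hd'⟩
  have hψψ : ∀ x, ψ (ψ x) = x := h.core.invol hC
  have hji : ∃ b b', ψ (Sum.inl (j, b)) = Sum.inl (i, b') := by
    obtain ⟨b', hb'⟩ := hij true
    exact ⟨b', true, by
      have h1 := hψψ (Sum.inl (i, true))
      rw [hb'] at h1
      exact h1⟩
  have hq : ∀ d : (N j).1.D, ∃ d', e (dt N j d) = dt N i d' := by
    intro d
    obtain ⟨b, b', hb'⟩ := hji
    obtain ⟨φ, hφ, hφe⟩ := h.nets j b i b' hb'
    obtain ⟨d', hd'⟩ := hφ.inl d
    exact ⟨d', hφe d d' hd'⟩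
  ext t
  rw [mem_map]
  constructor
  · rintro ⟨u, hu, rfl⟩
    rw [ARarc_mem_up] at hu
    obtain ⟨d, hd, rfl⟩ := hu
    rw [ARarc_mem_tr] at hd
    obtain ⟨d', hd'⟩ := hp d
    show e (dt N i d) ∈ _
    rw [hd', ARarc_mem_up]
    refine ⟨d', ?_, rfl⟩
    rw [ARarc_mem_tr, ← hd']
    exact hA _ hd
  · intro hu
    rw [ARarc_mem_up] at hu
    obtain ⟨d, hd, rfl⟩ := hu
    rw [ARarc_mem_tr] at hd
    obtain ⟨d', hd'⟩ := hq d
    refine ⟨e (dt N j d), ?_, hee _⟩
    rw [hd', ARarc_mem_up]
    refine ⟨d', ?_, rfl⟩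
    rw [ARarc_mem_tr, ← hd']
    exact hA _ hd

/-- an iso between `s` and its inverse preserves cuts -/
theorem ARarc_cut_map {M : BMap} {c : Bool} {e : Perm M.T} (h : TwI true c M M e)
    (A : Finset M.T) : cut M.s (A.map e.toEmbedding) = cut M.s A := by
  rw [← cut_twS true M.s (A.map e.toEmbedding)]
  exact cut_iso e h.rot A

/-- the last step: both ends of the net belong to `A` -/
theorem ARarc_par (hC : C.toB.IsGood) {c : Bool} {ψ : Perm C.toB.T} {e : Perm (comp C N).T}
    (h : CTw true c C C N N ψ e) {A : Finset (comp C N).T} (hA : AxSet (comp C N) e A)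
    {i j : C.I} (hne : i ≠ j) (hij : ∀ b, ∃ b', ψ (Sum.inl (i, b)) = Sum.inl (j, b'))
    (h4 : cut (comp C N).s (upS N i (ARarc_tr N i A)) = 4)
    (h1 : dt N i (lstD (N i) true) ∈ A) (h2 : dt N i (fstD (N i) false) ∈ A)
    (hu : ARarc_tr N i A ≠ univ) : IsPar (N i).1 := by
  refine par_of_poles (N i).2 (B := dn (ARarc_tr N i A)) ?_ ?_ (ARarc_dn_inr _ _) ?_ ?_ ?_ ?_
  · intro t
    rcases t with d | b
    · show (Sum.inl ((N i).1.a d) : (N i).1.T) ∈ _ ↔ _
      rw [ARarc_mem_dn, ARarc_mem_dn, ARarc_mem_tr, ARarc_mem_tr, ← aa_dt]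
      exact hA.cl _
    · show (Sum.inr (!b) : (N i).1.T) ∈ _ ↔ _
      constructor
      · intro h; exact absurd h (ARarc_dn_inr _ _)
      · intro h; exact absurd h (ARarc_dn_inr _ _)
  · rw [← cut_upS hC]; exact h4
  · have e1 : (N i).1.s⁻¹ (Sum.inr true) = Sum.inl (lstD (N i) true) := by
      rw [Perm.inv_eq_iff_eq]
      exact (lstD_spec (N i) true).symm
    rw [e1, ARarc_mem_dn, ARarc_mem_tr]
    exact h1
  · rw [fstD_spec, ARarc_mem_dn, ARarc_mem_tr]
    exact h2
  · intro h0
    apply hu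
    rw [eq_univ_iff_forall] at h0 ⊢
    intro d
    have := h0 (Sum.inl d)
    rw [mem_union] at this
    rcases this with h3 | h3
    · exact (ARarc_mem_dn _ _).1 h3
    · obtain ⟨b, hb⟩ := mem_root.1 h3
      simp at hb
  · intro t ht
    rcases t with d | b
    · rcases hs : (N i).1.s (Sum.inl d) with d' | b
      · rw [mem_bd, hs, ARarc_mem_dn, ARarc_mem_dn, ARarc_mem_tr, ARarc_mem_tr] at ht
        have hb : dt N i d ∈ bd (comp C N).s A := by
          rw [mem_bd, s_dt_in N hs]
          exact ht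
        have hsc := hA.ends _ hb
        obtain ⟨b', hb'⟩ := hij true
        obtain ⟨φ, hφ, hφe⟩ := h.nets i true j b' hb'
        obtain ⟨d2, hd2⟩ := hφ.inl d
        rw [hφe d d2 hd2] at hsc
        obtain ⟨b1, -, h3, -, -⟩ := sc_parts hC hne hsc
        exact ⟨b1, h3⟩
      · exact ⟨b, ⟨1, by rw [zpow_one]; exact hs⟩⟩
    · exact ⟨b, Perm.SameCycle.refl _ _⟩

end comp

theorem ARarc_subset_card {T : Type} [DecidableEq T] {S : Finset T} {x y : T} (hS : S ⊆ {x, y}) :
    S.card ≤ 2 ∧ (2 ≤ S.card → x ∈ S ∧ y ∈ S) := by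
  refine ⟨(card_le_card hS).trans card_le_two, fun h => ?_⟩
  have h2 : S = {x, y} := eq_of_subset_of_card_le hS (card_le_two.trans h)
  rw [h2]
  simp

section
open CompInj CompFour
variable {C : Core} {N : C.I → GB}

/-- a map of darts between two parts exchanged by the reflection -/
theorem ARarc_dart {c : Bool} {ψ : Perm C.toB.T} {e : Perm (comp C N).T}
    (h : CTw true c C C N N ψ e) {i j : C.I}
    (hij : ∀ b, ∃ b', ψ (Sum.inl (i, b)) = Sum.inl (j, b')) (d : (N i).1.D) :
    ∃ d', e (dt N i d) = dt N j d' := by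
  obtain ⟨b', hb'⟩ := hij true
  obtain ⟨φ, hφ, hφe⟩ := h.nets i true j b' hb'
  obtain ⟨d', hd'⟩ := hφ.inl d
  exact ⟨d', hφe d d' hd'⟩

theorem ARarc_swap {c : Bool} {ψ : Perm C.toB.T} {e : Perm (comp C N).T}
    (h : CTw true c C C N N ψ e) (hC : C.toB.IsGood) {i j : C.I}
    (hij : ∀ b, ∃ b', ψ (Sum.inl (i, b)) = Sum.inl (j, b')) :
    ∀ b, ∃ b', ψ (Sum.inl (j, b)) = Sum.inl (i, b') := by
  intro b
  have hψψ : ∀ x, ψ (ψ x) = x := h.core.invol hC
  obtain ⟨b', hb'⟩ := hij true
  have h1 := hψψ (Sum.inl (i, true))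
  rw [hb'] at h1
  have h3 : ψ (Sum.inl (j, !b')) = Sum.inl (i, false) :=
    (h.core.aa (Sum.inl (j, b'))).trans (congrArg C.toB.aa h1)
  by_cases hbb : b = b'
  · subst hbb
    exact ⟨_, h1⟩
  · have h4 : b = !b' := by
      revert hbb
      cases b <;> cases b' <;> decide
    subst h4
    exact ⟨_, h3⟩

theorem ARarc_Xcl {A : Finset (comp C N).T} (hA : Cl (comp C N).aa A) (i : C.I) :
    Cl (comp C N).aa (upS N i (ARarc_tr N i A)) := by
  intro t
  rw [ARarc_mem_P, ARarc_mem_P, partOf_aa, hA t]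

theorem ARarc_X4 (hC : C.toB.IsGood) {A : Finset (comp C N).T} (hA : Cl (comp C N).aa A) (i : C.I)
    (hne : (upS N i (ARarc_tr N i A)).Nonempty) :
    4 ≤ cut (comp C N).s (upS N i (ARarc_tr N i A)) := by
  refine (comp_good C N hC).ns _ (ARarc_Xcl hA i) hne ?_
  intro h0
  have h1 : (Sum.inr true : (comp C N).T) ∈ upS N i (ARarc_tr N i A) := by
    rw [h0]; exact mem_univ _
  have h2 := (ARarc_mem_P.1 h1).2
  rw [partOf_root] at h2
  simp at h2

theorem ARarc_dis (A B : Finset (comp C N).T) {i j : C.I} (hij : i ≠ j) :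
    Disjoint (upS N i (ARarc_tr N i A)) (upS N j (ARarc_tr N j B)) := by
  rw [disjoint_left]
  intro t h1 h2
  have e1 := (ARarc_mem_P.1 h1).2
  rw [(ARarc_mem_P.1 h2).2] at e1
  exact hij (Option.some.inj e1).symm

/-- the two parts are exchanged -/
theorem ARarc_two (hC : C.toB.IsGood) {c : Bool} {ψ : Perm C.toB.T} {e : Perm (comp C N).T}
    (h : CTw true c C C N N ψ e) {A : Finset (comp C N).T} (hA : AxSet (comp C N) e A)
    {i j : C.I} (hne : i ≠ j) (hI : ∀ k, k = i ∨ k = j)
    (hij : ∀ b, ∃ b', ψ (Sum.inl (i, b)) = Sum.inl (j, b'))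
    (hx : ∀ x, ((C.edge x = some i ∧ C.edge (C.s x) = some j) ∨
      (C.edge x = some j ∧ C.edge (C.s x) = some i)) → x = Sum.inl (i, true) ∨ x = Sum.inl (j, false))
    (hs : C.s (Sum.inl (j, false)) = Sum.inl (i, false)) : IsPar (N i).1 := by
  have hG : (comp C N).IsGood := comp_good _ _ hC
  have hmap := ARarc_map h hA.inv hC hij
  have hcut : cut (comp C N).s (upS N j (ARarc_tr N j A)) =
      cut (comp C N).s (upS N i (ARarc_tr N i A)) := by
    rw [← hmap]; exact ARarc_cut_map h.tw _
  have hXY : upS N i (ARarc_tr N i A) ∪ upS N j (ARarc_tr N j A) = A := by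
    ext t
    rw [mem_union, ARarc_mem_P, ARarc_mem_P]
    constructor
    · rintro (h1 | h1)
      · exact h1.1
      · exact h1.1
    · intro ht
      rcases cases_dt N t with ⟨k, d, rfl⟩ | ⟨b', rfl⟩
      · rcases hI k with rfl | rfl
        · exact Or.inl ⟨ht, rfl⟩
        · exact Or.inr ⟨ht, rfl⟩
      · exact absurd ((inr_mem_iff hA.cl b' true).1 ht) hA.root
  have hXne : (upS N i (ARarc_tr N i A)).Nonempty := by
    by_contra hn
    rw [not_nonempty_iff_eq_empty] at hn
    have hY0 : upS N j (ARarc_tr N j A) = ∅ := by rw [← hmap, hn, map_empty]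
    have hA0 : A = ∅ := by rw [← hXY, hn, hY0, union_empty]
    have h4 := hA.cut4
    rw [hA0] at h4
    simp [cut, bd] at h4
  have hXu : ARarc_tr N i A ≠ univ := by
    intro h0
    apply hA.rest
    rw [eq_univ_iff_forall] at h0 ⊢
    intro t
    rw [mem_union]
    rcases cases_dt N t with ⟨k, d, rfl⟩ | ⟨b', rfl⟩
    · left
      rcases hI k with rfl | rfl
      · exact ARarc_mem_tr.1 (h0 d)
      · obtain ⟨d', hd'⟩ := ARarc_dart h (ARarc_swap h hC hij) d
        have h3 := hA.inv _ (ARarc_mem_tr.1 (h0 d'))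
        rw [← hd', h.tw.invol hG] at h3
        exact h3
    · exact Or.inr (mem_root.2 ⟨_, rfl⟩)
  have hX4 := ARarc_X4 hC hA.cl i hXne
  have hcu := ARarc_cut_union (comp C N).s (ARarc_dis (N := N) A A hne)
  rw [hXY, hA.cut4, hcut] at hcu
  have hsub : ARarc_cr (comp C N).s (upS N i (ARarc_tr N i A)) (upS N j (ARarc_tr N j A)) ⊆
      {L N (Sum.inl (i, true)), L N (Sum.inl (j, false))} := by
    intro t ht
    obtain ⟨x, rfl, hx'⟩ := ARarc_cr_L hC hne (fun t ht => (ARarc_mem_P.1 ht).2)
      (fun t ht => (ARarc_mem_P.1 ht).2) ht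
    rw [mem_insert, mem_singleton]
    rcases hx x hx' with e1 | e1
    · left; rw [e1]
    · right; rw [e1]
  obtain ⟨hle, hmem⟩ := ARarc_subset_card hsub
  have hX4' : cut (comp C N).s (upS N i (ARarc_tr N i A)) = 4 := by omega
  obtain ⟨hm1, hm2⟩ := hmem (by omega)
  refine ARarc_par hC h hA hne hij hX4' ?_ ?_ hXu
  · rw [ARarc_mem_cr] at hm1
    rcases hm1 with ⟨h1, -⟩ | ⟨h1, -⟩
    · exact (ARarc_mem_P.1 h1).1
    · exact (ARarc_mem_P.1 h1).1
  · rw [ARarc_mem_cr, s_L, hs, J_inl] at hm2
    rcases hm2 with ⟨-, h1⟩ | ⟨-, h1⟩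
    · exact (ARarc_mem_P.1 h1).1
    · exact (ARarc_mem_P.1 h1).1

/-- two parts are exchanged, the middle part is an edge -/
theorem ARarc_three (hC : C.toB.IsGood) {c : Bool} {ψ : Perm C.toB.T} {e : Perm (comp C N).T}
    (h : CTw true c C C N N ψ e) {A : Finset (comp C N).T} (hA : AxSet (comp C N) e A)
    {i j k : C.I} (hij0 : i ≠ j) (hik : i ≠ k) (hjk : j ≠ k) (hI : ∀ l, l = i ∨ l = j ∨ l = k)
    (hij : ∀ b, ∃ b', ψ (Sum.inl (i, b)) = Sum.inl (j, b'))
    (hx1 : ∀ x, ¬ ((C.edge x = some i ∧ C.edge (C.s x) = some j) ∨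
      (C.edge x = some j ∧ C.edge (C.s x) = some i)))
    (hx2 : ∀ x, ((C.edge x = some i ∧ C.edge (C.s x) = some k) ∨
      (C.edge x = some k ∧ C.edge (C.s x) = some i)) → x = Sum.inl (i, true) ∨ x = Sum.inl (k, false))
    (hx3 : ∀ x, ((C.edge x = some j ∧ C.edge (C.s x) = some k) ∨
      (C.edge x = some k ∧ C.edge (C.s x) = some j)) → x = Sum.inl (j, false) ∨ x = Sum.inl (k, true))
    (hs : C.s (Sum.inl (k, false)) = Sum.inl (i, false))
    (hk : Fintype.card (N k).1.D = 2) : A.card = 2 ∨ IsPar (N i).1 := by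
  have hG : (comp C N).IsGood := comp_good _ _ hC
  have hmap := ARarc_map h hA.inv hC hij
  have hcut : cut (comp C N).s (upS N j (ARarc_tr N j A)) =
      cut (comp C N).s (upS N i (ARarc_tr N i A)) := by
    rw [← hmap]; exact ARarc_cut_map h.tw _
  have hXY : upS N i (ARarc_tr N i A) ∪ upS N j (ARarc_tr N j A) ∪ upS N k (ARarc_tr N k A) = A := by
    ext t
    rw [mem_union, mem_union, ARarc_mem_P, ARarc_mem_P, ARarc_mem_P]
    constructor
    · rintro ((h1 | h1) | h1)
      · exact h1.1
      · exact h1.1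
      · exact h1.1
    · intro ht
      rcases cases_dt N t with ⟨l, d, rfl⟩ | ⟨b', rfl⟩
      · rcases hI l with rfl | rfl | rfl
        · exact Or.inl (Or.inl ⟨ht, rfl⟩)
        · exact Or.inl (Or.inr ⟨ht, rfl⟩)
        · exact Or.inr ⟨ht, rfl⟩
      · exact absurd ((inr_mem_iff hA.cl b' true).1 ht) hA.root
  -- the middle part is in `A` or disjoint from it
  have hkk : ARarc_tr N k A = ∅ ∨ ARarc_tr N k A = univ := by
    rcases (ARarc_tr N k A).eq_empty_or_nonempty with h0 | ⟨d, hd⟩
    · exact Or.inl h0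
    · right
      have hd2 : (N k).1.a d ∈ ARarc_tr N k A := by
        rw [ARarc_mem_tr, ← aa_dt]
        exact (hA.cl _).2 (ARarc_mem_tr.1 hd)
      have hne2 : (N k).1.a d ≠ d := by
        intro h1
        have h2 := (N k).2.fpf (Sum.inl d)
        apply h2
        exact congrArg Sum.inl h1
      refine eq_univ_of_card _ (le_antisymm (card_le_univ _) ?_)
      rw [hk]
      have h3 : ({(N k).1.a d, d} : Finset (N k).1.D) ⊆ ARarc_tr N k A := by
        intro x hx
        rw [mem_insert, mem_singleton] at hx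
        rcases hx with rfl | rfl
        · exact hd2
        · exact hd
      have h4 := card_le_card h3
      rw [card_pair hne2] at h4
      exact h4
  by_cases hXe : upS N i (ARarc_tr N i A) = ∅
  · left
    have hY0 : upS N j (ARarc_tr N j A) = ∅ := by rw [← hmap, hXe, map_empty]
    rw [hXe, hY0, empty_union, empty_union] at hXY
    rcases hkk with h0 | h0
    · exfalso
      have hA0 : A = ∅ := by
        rw [← hXY, h0]
        simp [upS]
      have h4 := hA.cut4
      rw [hA0] at h4
      simp [cut, bd] at h4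
    · rw [← hXY, h0]
      unfold upS
      rw [card_map, card_univ, hk]
  right
  have hXne : (upS N i (ARarc_tr N i A)).Nonempty := nonempty_iff_ne_empty.2 hXe
  have hX4 := ARarc_X4 hC hA.cl i hXne
  have hPij : Disjoint (upS N i (ARarc_tr N i A)) (upS N j (ARarc_tr N j A)) := ARarc_dis A A hij0
  have hPik : Disjoint (upS N i (ARarc_tr N i A)) (upS N k (ARarc_tr N k A)) := ARarc_dis A A hik
  have hPjk : Disjoint (upS N j (ARarc_tr N j A)) (upS N k (ARarc_tr N k A)) := ARarc_dis A A hjk
  have hP : ∀ (l : C.I), ∀ t ∈ upS N l (ARarc_tr N l A), partOf C N t = some l :=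
    fun l t ht => (ARarc_mem_P.1 ht).2
  have hcr0 : ARarc_cr (comp C N).s (upS N i (ARarc_tr N i A)) (upS N j (ARarc_tr N j A)) = ∅ := by
    rw [eq_empty_iff_forall_notMem]
    intro t ht
    obtain ⟨x, -, hx'⟩ := ARarc_cr_L hC hij0 (hP i) (hP j) ht
    exact hx1 x hx'
  have hcu1 := ARarc_cut_union (comp C N).s hPij
  rw [hcr0, card_empty, hcut] at hcu1
  rcases hkk with h0 | h0
  · exfalso
    have hk0 : upS N k (ARarc_tr N k A) = ∅ := by rw [h0]; simp [upS]
    rw [hk0, union_empty] at hXY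
    rw [hXY, hA.cut4] at hcu1
    omega
  have hK4 : cut (comp C N).s (upS N k (ARarc_tr N k A)) = 4 := by
    have h1 : upS N k (ARarc_tr N k A) = partSet C N k := by
      ext t
      rw [mem_partSet, ARarc_mem_P]
      constructor
      · exact fun h => h.2
      · intro h
        refine ⟨?_, h⟩
        rcases cases_dt N t with ⟨l, d, rfl⟩ | ⟨b', rfl⟩
        · rw [partOf_dt, Option.some.injEq] at h
          subst h
          rw [← ARarc_mem_tr, h0]
          exact mem_univ _
        · rw [partOf_root] at h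
          simp at h
    rw [h1]
    exact cut_partSet C N hC k
  have hcu2 := ARarc_cut_union (comp C N).s (disjoint_union_left.2 ⟨hPik, hPjk⟩)
  rw [hXY, hA.cut4, hK4] at hcu2
  have hcr2 : ARarc_cr (comp C N).s (upS N i (ARarc_tr N i A) ∪ upS N j (ARarc_tr N j A))
      (upS N k (ARarc_tr N k A)) ⊆
      ARarc_cr (comp C N).s (upS N i (ARarc_tr N i A)) (upS N k (ARarc_tr N k A)) ∪
      ARarc_cr (comp C N).s (upS N j (ARarc_tr N j A)) (upS N k (ARarc_tr N k A)) := by
    intro t ht
    rw [mem_union, ARarc_mem_cr, ARarc_mem_cr]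
    rw [ARarc_mem_cr, mem_union, mem_union] at ht
    tauto
  have hsub1 : ARarc_cr (comp C N).s (upS N i (ARarc_tr N i A)) (upS N k (ARarc_tr N k A)) ⊆
      {L N (Sum.inl (i, true)), L N (Sum.inl (k, false))} := by
    intro t ht
    obtain ⟨x, rfl, hx'⟩ := ARarc_cr_L hC hik (hP i) (hP k) ht
    rw [mem_insert, mem_singleton]
    rcases hx2 x hx' with e1 | e1
    · left; rw [e1]
    · right; rw [e1]
  have hsub2 : ARarc_cr (comp C N).s (upS N j (ARarc_tr N j A)) (upS N k (ARarc_tr N k A)) ⊆
      {L N (Sum.inl (j, false)), L N (Sum.inl (k, true))} := by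
    intro t ht
    obtain ⟨x, rfl, hx'⟩ := ARarc_cr_L hC hjk (hP j) (hP k) ht
    rw [mem_insert, mem_singleton]
    rcases hx3 x hx' with e1 | e1
    · left; rw [e1]
    · right; rw [e1]
  obtain ⟨hle1, hmem1⟩ := ARarc_subset_card hsub1
  obtain ⟨hle2, -⟩ := ARarc_subset_card hsub2
  have hle := (card_le_card hcr2).trans (card_union_le _ _)
  have hX4' : cut (comp C N).s (upS N i (ARarc_tr N i A)) = 4 := by omega
  obtain ⟨hm1, hm2⟩ := hmem1 (by omega)
  have hm1' : dt N i (lstD (N i) true) ∈ A := by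
    rw [ARarc_mem_cr] at hm1
    rcases hm1 with ⟨h1, -⟩ | ⟨h1, -⟩
    · exact (ARarc_mem_P.1 h1).1
    · exact (ARarc_mem_P.1 h1).1
  have hm2' : dt N i (fstD (N i) false) ∈ A := by
    rw [ARarc_mem_cr, s_L, hs, J_inl] at hm2
    rcases hm2 with ⟨-, h1⟩ | ⟨-, h1⟩
    · exact (ARarc_mem_P.1 h1).1
    · exact (ARarc_mem_P.1 h1).1
  refine ARarc_par hC h hA hij0 hij hX4' hm1' hm2' ?_
  intro hu
  apply hA.rest
  rw [eq_univ_iff_forall] at hu h0 ⊢
  intro t
  rw [mem_union]
  rcases cases_dt N t with ⟨l, d, rfl⟩ | ⟨b', rfl⟩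
  · left
    rcases hI l with rfl | rfl | rfl
    · exact ARarc_mem_tr.1 (hu d)
    · obtain ⟨d', hd'⟩ := ARarc_dart h (ARarc_swap h hC hij) d
      have h3 := hA.inv _ (ARarc_mem_tr.1 (hu d'))
      rw [← hd', h.tw.invol hG] at h3
      exact h3
    · exact ARarc_mem_tr.1 (h0 d)
  · exact Or.inr (mem_root.2 ⟨_, rfl⟩)

end

/-- tables for the two cores -/
def ARarc_tS (x : (Bool × Bool) ⊕ Bool) : (Bool × Bool) ⊕ Bool := (ddCore tri).s x
def ARarc_tE (x : (Bool × Bool) ⊕ Bool) : Option Bool := (ddCore tri).edge x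
def ARarc_qS (x : (Fin 3 × Bool) ⊕ Bool) : (Fin 3 × Bool) ⊕ Bool := (ddCore quad).s x
def ARarc_qE (x : (Fin 3 × Bool) ⊕ Bool) : Option (Fin 3) := (ddCore quad).edge x
def ARarc_uS (x : (Bool × Bool) ⊕ Bool) : (Bool × Bool) ⊕ Bool := tri.s x

theorem ARarc_tri1 : ∀ x, ((ARarc_tE x = some true ∧ ARarc_tE (ARarc_tS x) = some false) ∨
    (ARarc_tE x = some false ∧ ARarc_tE (ARarc_tS x) = some true)) →
    x = Sum.inl (true, true) ∨ x = Sum.inl (false, false) := by decide
theorem ARarc_tri2 : ARarc_tS (Sum.inl (false, false)) = Sum.inl (true, false) := by decide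
theorem ARarc_tri3 : ARarc_uS (Sum.inl (true, true)) = Sum.inr true := by decide
theorem ARarc_q1 : ∀ x, ¬ ((ARarc_qE x = some 0 ∧ ARarc_qE (ARarc_qS x) = some 2) ∨
    (ARarc_qE x = some 2 ∧ ARarc_qE (ARarc_qS x) = some 0)) := by decide
theorem ARarc_q2 : ∀ x, ((ARarc_qE x = some 0 ∧ ARarc_qE (ARarc_qS x) = some 1) ∨
    (ARarc_qE x = some 1 ∧ ARarc_qE (ARarc_qS x) = some 0)) →
    x = Sum.inl (0, true) ∨ x = Sum.inl (1, false) := by decide
theorem ARarc_q3 : ∀ x, ((ARarc_qE x = some 2 ∧ ARarc_qE (ARarc_qS x) = some 1) ∨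
    (ARarc_qE x = some 1 ∧ ARarc_qE (ARarc_qS x) = some 2)) →
    x = Sum.inl (2, false) ∨ x = Sum.inl (1, true) := by decide
theorem ARarc_q4 : ARarc_qS (Sum.inl (1, false)) = Sum.inl (0, false) := by decide

/-- Proof.  Let `A` be an `AxSet`, `P₁`, `P₂` the parts, `e P₁ = P₂`, `B = A ∩ P₁`, so `A = B ∪ e B`, `B` is not empty (`A` is not) and not `P₁` (by
`rest`).  A vertex with a dart of `P₁` which is fixed by `e` contains a dart of `P₂`, so it is a pole (`sc_parts`, the core has two vertices).  So all boundary corners of `A`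
are at poles, and those of `B` also (the other dart is in `P₁ \ A`: boundary corner of `A`; in `P₂` or the root: pole).  There are boundary corners of `A` at two
vertices (`Good.two_shared`), an even number at each vertex, so exactly two at each pole.  At the pole `b` the darts are in the order: `inr b`, `P₁`, `P₂` (for `b = true`; for
`b = false`: `inr b`, `P₂`, `P₁`), and `e` reverses this order; the two boundary corners of `A` at this pole are exchanged by `t ↦ e (s t)`; so the
corner between `P₁` and `P₂` is not one of them (it is fixed by `t ↦ e (s t)`), and as the darts of `A` at the pole are consecutive and `inr b ∉ A`, the last dart of `P₁` before `P₂` (resp. the first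
dart of `P₁` after `P₂`) is in `B`: otherwise the two darts at the corner between `P₁` and `P₂` are not in `A`, the darts of `A` at the pole in `P₁` and in `P₂` would give two boundary
corners each.  So the cut of `B` is 4, and the set `dn B` of the net `a` satisfies the assumptions of `par_of_poles` for `a` or for its mirror image (`isPar_tw`): the net `a` is
parallel, contradiction. -/
theorem ared_bond_arc {a b : GB} (ha : ¬ IsPar a.1) {ψ : Perm (ddCore tri).toB.T}
    {e : Perm (comp (ddCore tri) (serNets a b)).T}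
    (h : CTw true false (ddCore tri) (ddCore tri) (serNets a b) (serNets a b) ψ e)
    (hψ : ∀ i b, ψ (Sum.inl (i, b)) = Sum.inl (!i, b)) :
    ARed (comp (ddCore tri) (serNets a b)) e := by
  intro A hA
  exfalso
  apply ha
  exact ARarc_two (C := ddCore tri) (N := serNets a b) (dd_good tri_good) h hA
    (i := true) (j := false) (fun h => Bool.noConfusion h) (fun k => Bool.eq_false_or_eq_true k) (fun c => ⟨c, hψ true c⟩)
    ARarc_tri1 ARarc_tri2

/-- Proof.  The middle part is an `AxSet` (`ax_part` with `B = univ`), so `m` has 2 darts.  Conversely let `m` have 2 darts and let `A` be an `AxSet`, `B = A ∩ P₀`.  If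
`B` is empty, `A` is the middle edge.  Otherwise as in `ared_bond_arc` all boundary corners of `A` and `B` are at poles, two of `A` at each pole.  If the middle edge is not in
`A`, then at each pole the darts of `A` in `P₀` and in `P₂` are separated by the root dart and the middle edge, and there are boundary corners of `B` and `e B` at (at least) two
vertices, an even number, so at least 8 boundary corners of `A` in total; contradiction.  So the middle edge is in `A`, and if `B ≠ P₀` the darts of `B` at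
each pole are next to the middle edge (two boundary corners of `A` at each pole; the order at the pole `true` is: root, `P₀`, middle, `P₂`, at the pole
`false`: root, `P₂`, middle, `P₀`), so `a` is parallel by `par_of_poles`.
If `B = P₀` then `A ∪ root` is everything.  -/
theorem ared_bond3_arc {a m b : GB} (ha : ¬ IsPar a.1) {ψ : Perm (ddCore quad).toB.T}
    {e : Perm (comp (ddCore quad) (nets3 a m b)).T}
    (h : CTw true false (ddCore quad) (ddCore quad) (nets3 a m b) (nets3 a m b) ψ e)
    (h0 : ∀ b, ψ (Sum.inl ((0 : Fin 3), b)) = Sum.inl ((2 : Fin 3), b))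
    (h1 : ∀ b, ψ (Sum.inl ((1 : Fin 3), b)) = Sum.inl ((1 : Fin 3), b))
    (h2 : ∀ b, ψ (Sum.inl ((2 : Fin 3), b)) = Sum.inl ((0 : Fin 3), b)) :
    ARed (comp (ddCore quad) (nets3 a m b)) e ↔ Fintype.card m.1.D = 2 := by
  have hC : (ddCore quad).toB.IsGood := dd_good quad_good
  constructor
  · intro hr
    obtain ⟨φ, hφ, -⟩ := h.nets (1 : Fin 3) true (1 : Fin 3) true (h1 true)
    have hax := (ax_part hC (C := ddCore quad) (N := nets3 a m b) (by
      show 2 ≤ Fintype.card (Fin 3)
      simp) h (i := (1 : Fin 3)) (b := true) (b' := true) (h1 true) hφ univ).2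
        (Or.inr ⟨rfl, rfl⟩)
    have h3 := hr _ hax
    unfold upS at h3
    rw [card_map, card_univ] at h3
    exact h3
  · intro hm A hA
    have hI : ∀ l : Fin 3, l = 0 ∨ l = 2 ∨ l = 1 := by decide
    have n1 : (0 : Fin 3) ≠ 2 := by decide
    have n2 : (0 : Fin 3) ≠ 1 := by decide
    have n3 : (2 : Fin 3) ≠ 1 := by decide
    rcases ARarc_three (C := ddCore quad) (N := nets3 a m b) hC h hA
      (i := (0 : Fin 3)) (j := (2 : Fin 3)) (k := (1 : Fin 3)) n1 n2 n3
      hI (fun c => ⟨c, h0 c⟩) ARarc_q1 ARarc_q2 ARarc_q3 ARarc_q4 hm with h3 | h3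
    · exact h3
    · exact absurd h3 ha

/-- the first part is an `AxSet` (`ax_part` with `B = univ`); so it is a single edge, and the dart before the root dart is on the axis -/
theorem ser_arc {a b : GB} {ψ : Perm tri.toB.T} {e : Perm (comp tri (serNets a b)).T}
    (h : CTw true false tri tri (serNets a b) (serNets a b) ψ e)
    (hψ : ∀ i b, ψ (Sum.inl (i, b)) = Sum.inl (i, b)) (hr : ARed (comp tri (serNets a b)) e) :
    e ((comp tri (serNets a b)).s⁻¹ (Sum.inr true)) = (comp tri (serNets a b)).s⁻¹ (Sum.inr true) := by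
  obtain ⟨φ, hφ, -⟩ := h.nets true true true true (hψ true true)
  have hax := (ax_part tri_good (C := tri) (N := serNets a b) (by
    show 2 ≤ Fintype.card Bool
    simp) h (i := true) (b := true) (b' := true) (hψ true true) hφ univ).2
      (Or.inr ⟨rfl, rfl⟩)
  have h3 := hr _ hax
  unfold upS at h3
  rw [card_map, card_univ] at h3
  have h4 : Fintype.card a.1.D = 2 := h3
  have e1 : (comp tri (serNets a b)).s⁻¹ (Sum.inr true) =
      CompInj.L (serNets a b) (Sum.inl (true, true)) := by
    rw [Perm.inv_eq_iff_eq, CompInj.s_L]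
    have h5 : tri.s (Sum.inl (true, true)) = Sum.inr true := ARarc_tri3
    rw [h5]
    rfl
  have e2 : CompInj.lstD a true = fstD a true := by
    by_contra hne
    have h6 : a.1.a (fstD a true) = CompInj.lstD a true := by
      by_contra h7
      have h8 : a.1.a (fstD a true) ≠ fstD a true := by
        intro h9
        exact a.2.fpf (Sum.inl (fstD a true)) (congrArg Sum.inl h9)
      have h10 : ({a.1.a (fstD a true), fstD a true, CompInj.lstD a true} : Finset a.1.D).card = 3 := by
        rw [card_insert_of_notMem, card_pair (Ne.symm hne)]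
        rw [mem_insert, mem_singleton, not_or]
        exact ⟨h8, h7⟩
      have h11 := card_le_univ ({a.1.a (fstD a true), fstD a true, CompInj.lstD a true} : Finset a.1.D)
      omega
    apply a.2.noLoop (Sum.inl (fstD a true))
    have h12 : a.1.aa (Sum.inl (fstD a true)) = Sum.inl (CompInj.lstD a true) :=
      congrArg Sum.inl h6
    rw [h12]
    have h13 : a.1.s.SameCycle (Sum.inr true) (Sum.inl (fstD a true)) :=
      ⟨1, by rw [zpow_one]; exact fstD_spec a true⟩
    have h14 : a.1.s.SameCycle (Sum.inl (CompInj.lstD a true)) (Sum.inr true) :=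
      ⟨1, by rw [zpow_one]; exact CompInj.lstD_spec a true⟩
    exact (h14.trans h13).symm
  rw [e1]
  refine (h.L_J (Sum.inl (true, true))).trans ?_
  rw [hψ true true]
  show CompInj.dt (serNets a b) true (fstD a true) = CompInj.dt (serNets a b) true (CompInj.lstD a true)
  rw [e2]

end PGr
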